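import Pool.Agent.H.MP_2e4794_nt.CE.Nrm
import Pool.Agent.H.MP_2e4794_nt.CE.Lim

/-!
# Near-extremal points of zeta and 1/zeta on the line `Re s = 1`, under RH
-/

namespace Pool.Agent.Results.MP_2e4794_nt.CornerExclusion

open Filter

/-- The logarithm of the quotient of `2 e^γ loglog T` by `|ζ(1 + i t)|`. -/
noncomputable def a (T t : ℝ) : ℝ :=
  Real.log (2 * Real.exp Real.eulerMascheroniConstant * Real.log (Real.log T) /
    ‖riemannZeta (1 + t * Complex.I)‖)

/-- The logarithm of the quotient of `(12 / π²) e^γ loglog T` by `1 / |ζ(1 + i t)|`. -/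
noncomputable def b (T t : ℝ) : ℝ :=
  Real.log (12 / Real.pi ^ 2 * Real.exp Real.eulerMascheroniConstant * Real.log (Real.log T) *
    ‖riemannZeta (1 + t * Complex.I)‖)

/-- The upper limit of `|ζ(1 + i t)| / loglog t`. -/
noncomputable def Lp : ℝ :=
  limsup (fun t : ℝ => ‖riemannZeta (1 + t * Complex.I)‖ / Real.log (Real.log t)) atTop

/-- The upper limit of `(1 / |ζ(1 + i t)|) / loglog t`. -/
noncomputable def Lm : ℝ :=
  limsup (fun t : ℝ => 1 / ‖riemannZeta (1 + t * Complex.I)‖ / Real.log (Real.log t)) atTop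

/-- **Near-extremal points on the line `Re s = 1`, under RH.** -/
theorem result (RH : RiemannHypothesis) :
    (∀ ε : ℝ, 0 < ε → ∃ T0 : ℝ, ∀ T : ℝ, T0 ≤ T → ∀ t u : ℝ,
      T0 ≤ |t| → |t| ≤ T → T0 ≤ |u| → |u| ≤ T → T0 ≤ |t + u| → |t + u| ≤ T →
        Real.sqrt (a T (t + u) - ε) ≤ Real.sqrt (a T t + ε) + Real.sqrt (a T u + ε) ∧
        Real.sqrt (a T (t + u) - ε) ≤ 3 * Real.sqrt (b T t + ε) + 3 * Real.sqrt (b T u + ε) ∧
        Real.sqrt (b T (t + u) - ε) ≤ Real.sqrt (a T t + ε) + 3 * Real.sqrt (b T u + ε)) ∧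
    (∀ᶠ t : ℝ in atTop, 151 / 100 * Real.exp Real.eulerMascheroniConstant *
        Real.log (Real.log t) / (12 / Real.pi ^ 2 * Real.exp Real.eulerMascheroniConstant *
          Real.log (Real.log t) * ‖riemannZeta (1 + t * Complex.I)‖) ^ 10 ≤
      ‖riemannZeta (1 + ((2 * t : ℝ) : ℂ) * Complex.I)‖) ∧
    Lp ≤ 2 * Real.exp Real.eulerMascheroniConstant ∧
    Lm ≤ 12 / Real.pi ^ 2 * Real.exp Real.eulerMascheroniConstant ∧
    2 * Real.exp Real.eulerMascheroniConstant *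
      (Lm / (12 / Real.pi ^ 2 * Real.exp Real.eulerMascheroniConstant)) ^ 36 ≤ Lp ∧
    151 / 100 * Real.exp Real.eulerMascheroniConstant *
      (Lm / (12 / Real.pi ^ 2 * Real.exp Real.eulerMascheroniConstant)) ^ 10 ≤ Lp ∧
    (Lm = 12 / Real.pi ^ 2 * Real.exp Real.eulerMascheroniConstant →
      Lp = 2 * Real.exp Real.eulerMascheroniConstant) ∧
    (192 / 100 * (6 / Real.pi ^ 2 * Real.exp Real.eulerMascheroniConstant) ≤ Lm →
      Real.exp Real.eulerMascheroniConstant < Lp) := by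
  have hg := Pool.Agent.H.MP_2e4794_nt.CE.gm_pos
  have hpi : 0 < Real.pi ^ 2 := by positivity
  have r36 := Pool.Agent.H.MP_2e4794_nt.CE.rel RH (k := 36) (by norm_num) one_pos
    (fun Y _ t => Pool.Agent.H.MP_2e4794_nt.CE.prod36 Y t)
  have r10 := Pool.Agent.H.MP_2e4794_nt.CE.rel RH (k := 10) (by norm_num)
    (c := 13234 / 10000) (by norm_num) (fun Y hY t => Pool.Agent.H.MP_2e4794_nt.CE.prod10 hY t)
  have u1 := Pool.Agent.H.MP_2e4794_nt.CE.Lp_le RH
  have u2 := Pool.Agent.H.MP_2e4794_nt.CE.Lm_le RH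
  have n2 := Pool.Agent.H.MP_2e4794_nt.CE.Lm_nonneg RH
  have p10 := Pool.Agent.H.MP_2e4794_nt.CE.pointwise RH 10
    (c := 13234 / 10000) (by norm_num) (fun Y hY t => Pool.Agent.H.MP_2e4794_nt.CE.prod10 hY t)
    (θ := 151 / 100) (by norm_num)
  have eLp : limsup Pool.Agent.H.MP_2e4794_nt.CE.fp atTop = Lp := rfl
  have eLm : limsup Pool.Agent.H.MP_2e4794_nt.CE.fm atTop = Lm := rfl
  rw [eLp] at r36 r10 u1
  rw [eLm] at r36 r10 u2 n2
  have egm : Pool.Agent.H.MP_2e4794_nt.CE.gm = Real.exp Real.eulerMascheroniConstant := rfl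
  rw [egm] at r36 r10 u1 u2 hg p10
  obtain ⟨g, hgd⟩ : ∃ g, g = Real.exp Real.eulerMascheroniConstant := ⟨_, rfl⟩
  refine ⟨fun ε hε => ?_, ?_, u1, u2, ?_, ?_, ?_, ?_⟩
  · obtain ⟨T0, -, h⟩ := Pool.Agent.H.MP_2e4794_nt.CE.triangle RH hε
    exact ⟨T0, h⟩
  · filter_upwards [p10] with t h1
    rw [← hgd] at h1 ⊢
    refine le_trans (le_of_eq ?_) h1
    have h3 : Real.pi ^ 2 / (12 * g * (‖riemannZeta (1 + t * Complex.I)‖ *
        Real.log (Real.log t))) = (12 / Real.pi ^ 2 * g * Real.log (Real.log t) *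
          ‖riemannZeta (1 + t * Complex.I)‖)⁻¹ := by
      have h4 : 12 / Real.pi ^ 2 * g * Real.log (Real.log t) *
          ‖riemannZeta (1 + t * Complex.I)‖ = (12 * g * (‖riemannZeta (1 + t * Complex.I)‖ *
            Real.log (Real.log t))) / Real.pi ^ 2 := by ring
      rw [h4, inv_div]
    rw [h3, inv_pow, div_eq_mul_inv]
  · rw [← hgd] at r36 hg ⊢
    have h1 : Lm / (12 / Real.pi ^ 2 * g) = Real.pi ^ 2 * Lm / (12 * g) := by
      field_simp
    rw [h1]
    rw [div_one] at r36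
    exact r36
  · rw [← hgd] at r10 hg ⊢
    have h1 : Lm / (12 / Real.pi ^ 2 * g) = Real.pi ^ 2 * Lm / (12 * g) := by
      field_simp
    rw [h1]
    refine le_trans ?_ r10
    apply mul_le_mul_of_nonneg_right _ (by positivity)
    apply mul_le_mul_of_nonneg_right _ hg.le
    norm_num
  · intro h
    apply le_antisymm u1
    rw [← hgd] at r36 hg h ⊢
    rw [h] at r36
    have h1 : Real.pi ^ 2 * (12 / Real.pi ^ 2 * g) / (12 * g) = 1 := by
      field_simp
    rw [h1, one_pow, mul_one, div_one] at r36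
    exact r36
  · intro h
    rw [← hgd] at r10 hg h ⊢
    refine lt_of_lt_of_le ?_ r10
    have h1 : 96 / 100 ≤ Real.pi ^ 2 * Lm / (12 * g) := by
      rw [le_div_iff₀ (by positivity)]
      have h2 := mul_le_mul_of_nonneg_left h hpi.le
      have h3 : Real.pi ^ 2 * (192 / 100 * (6 / Real.pi ^ 2 * g)) = 96 / 100 * (12 * g) := by
        field_simp
        norm_num
      rw [h3] at h2
      exact h2
    have h4 : (96 / 100 : ℝ) ^ 10 ≤ (Real.pi ^ 2 * Lm / (12 * g)) ^ 10 :=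
      pow_le_pow_left₀ (by norm_num) h1 10
    have h5 : 1 < 2 / (13234 / 10000) * (96 / 100 : ℝ) ^ 10 := by norm_num
    calc g = g * 1 := (mul_one g).symm
      _ < g * (2 / (13234 / 10000) * (96 / 100 : ℝ) ^ 10) := mul_lt_mul_of_pos_left h5 hg
      _ = 2 / (13234 / 10000) * g * (96 / 100 : ℝ) ^ 10 := by ring
      _ ≤ _ := mul_le_mul_of_nonneg_left h4 (by positivity)

end Pool.Agent.Results.MP_2e4794_nt.CornerExclusion
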