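import Pool.Agent.H.MP_2e4794_nt.RP.RN
import Pool.Agent.H.MP_2e4794_nt.RP.QF

/-!
# Joint extreme values of the zeta function on the line `Re s = 1`, under RH
-/

namespace Pool.Agent.Results.MP_2e4794_nt.JointExtremes

variable {m : ℕ}

/-- The mean over the unit cube of the absolute value of the trigonometric polynomial
`P(x) = ∑ c_k e(k·x)`, the sum over `k ∈ S`. -/
noncomputable def J (S : Finset (Fin m → ℤ)) (c : (Fin m → ℤ) → ℝ) : ℝ :=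
  ∫ x in Set.Icc (0 : Fin m → ℝ) 1,
    ‖∑ k ∈ S, (c k : ℂ) * Complex.exp (2 * Real.pi * Complex.I * ∑ i, (k i : ℂ) * (x i : ℂ))‖

/-- The sum `∑ c_k log |ζ(1 + i (t + k·h))|` over `k ∈ S`. -/
noncomputable def Z (S : Finset (Fin m → ℤ)) (c : (Fin m → ℤ) → ℝ) (h : Fin m → ℝ) (t : ℝ) : ℝ :=
  ∑ k ∈ S, c k * Real.log ‖riemannZeta (1 + ((t + ∑ i, (k i : ℝ) * h i : ℝ) : ℂ) * Complex.I)‖

/-- **Joint extreme values on the line `Re s = 1`, under RH.** -/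
theorem result (RH : RiemannHypothesis) (S : Finset (Fin m → ℤ)) (c : (Fin m → ℤ) → ℝ)
    {ε : ℝ} (hε : 0 < ε) :
    (∃ C : ℝ, 3 ≤ C ∧ ∀ (h : Fin m → ℝ) (t H : ℝ), C ≤ H → C * H ≤ t → (∀ i, |h i| ≤ H) →
      (∀ k : Fin m → ℤ, k ≠ 0 → (∀ i, |(k i : ℝ)| ≤ C) → C ≤ |∑ i, (k i : ℝ) * h i|) →
      Z S c h t ≤
        (J S c + ε) * Real.log (Real.log (Real.log t) / Real.log (Real.log H)) +
        ∑ k ∈ S, (max (c k) 0 *
            Real.log ((2 * Real.exp Real.eulerMascheroniConstant + ε) * Real.log (Real.log H)) +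
          max (-(c k)) 0 *
            Real.log ((2 * (6 / Real.pi ^ 2 * Real.exp Real.eulerMascheroniConstant) + ε) *
              Real.log (Real.log H)))) ∧
    (∀ h : Fin m → ℝ, (∀ k : Fin m → ℤ, k ≠ 0 → ∑ i, (k i : ℝ) * h i ≠ 0) →
      ∃ T0 : ℝ, ∀ T : ℝ, T0 ≤ T →
        (∀ t ∈ Set.Icc T (2 * T), Z S c h t ≤ (J S c + ε) * Real.log (Real.log (Real.log T))) ∧
        ∃ t ∈ Set.Icc T (2 * T), (J S c - ε) * Real.log (Real.log (Real.log T)) ≤ Z S c h t) :=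
  ⟨Pool.Agent.H.MP_2e4794_nt.RP.indep RH S c hε,
    fun _ hind => Pool.Agent.H.MP_2e4794_nt.RP.exact_exponent RH S c hind hε⟩

end Pool.Agent.Results.MP_2e4794_nt.JointExtremes
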