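import Pool.Agent.H.MP_2e4794_nt.RL.FT

/-!
# Littlewood's bounds for `ζ(1+it)` and `1/ζ(1+it)` are local, up to few clusters (under RH)
-/

namespace Pool.Agent.Results.MP_2e4794_nt.LocalLittlewood

/-- Assume the Riemann hypothesis.

(I) Let `0 < β < 1` and `ε > 0`. There is `C` such that for all `x ≥ C`, with
`H = exp((log x)^β)`, there are at most `C` points of `[x, x+H]` such that every `t` in
`[x, x+H]` farther than `C` from all of them has
`|ζ(1+it)| ≤ (2β+ε) e^γ loglog x` and `1/|ζ(1+it)| ≤ (12β/π²+ε) e^γ loglog x`.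

(II) Let `0 < A ≤ 2`, `0 < ε ≤ 1`. There is `C` such that for all `x ≥ H ≥ C` with
`C (1 + Λ)^C ≤ log H`, where `Λ = log (loglog x / loglog H)`:
(a) there are at most `C (1 + Λ)²` points of `[x, x+H]` such that every `t` in `[x, x+H]`
farther than `C` from all of them has `|ζ(1+it) ∏_{p ≤ Y} (1 - p^{-1-it}) - 1| ≤ ε`, where
`Y = ⌈(log H)^(2+ε)⌉`, and `|ζ(1+it)| ≤ (2+ε) e^γ loglog H` and
`1/|ζ(1+it)| ≤ (12/π²+ε) e^γ loglog H`;
(b) there are at most `H^(1/A+ε)` points of `[x, x+H]` such that every `t` in `[x, x+H]`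
farther than `C` from all of them has `|ζ(1+it)| ≤ A e^γ loglog H` and
`1/|ζ(1+it)| ≤ A (6/π²) e^γ loglog H`;
(c) for `N` points of `[x, x+H]`, any two at distance at least `C`, the geometric mean of the
`|ζ(1+it)|` is at most `(2+ε) e^γ (loglog H) (loglog x / loglog H)^(1/√N)`, and that of the
`1/|ζ(1+it)|` is at most `(12/π²+ε) e^γ (loglog H) (loglog x / loglog H)^(1/√N)`. -/
theorem result (RH : RiemannHypothesis) :
    (∀ β ε : ℝ, 0 < β → β < 1 → 0 < ε → ∃ C : ℝ, 0 < C ∧ ∀ x : ℝ, C ≤ x →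
      ∃ S : Finset ℝ, (∀ s ∈ S, x ≤ s ∧ s ≤ x + Real.exp (Real.log x ^ β)) ∧ (S.card : ℝ) ≤ C ∧
        ∀ t : ℝ, x ≤ t → t ≤ x + Real.exp (Real.log x ^ β) → (∀ s ∈ S, C < |t - s|) →
          ‖riemannZeta (1 + t * Complex.I)‖ ≤
            (2 * β + ε) * Real.exp Real.eulerMascheroniConstant * Real.log (Real.log x) ∧
          ‖riemannZeta (1 + t * Complex.I)‖⁻¹ ≤
            (12 * β / Real.pi ^ 2 + ε) * Real.exp Real.eulerMascheroniConstant *
              Real.log (Real.log x)) ∧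
    (∀ A ε : ℝ, 0 < A → A ≤ 2 → 0 < ε → ε ≤ 1 → ∃ C : ℝ, 0 < C ∧ ∀ x H : ℝ, C ≤ H → H ≤ x →
      C * (1 + Real.log (Real.log (Real.log x) / Real.log (Real.log H))) ^ C ≤ Real.log H →
      (∃ S : Finset ℝ, (∀ s ∈ S, x ≤ s ∧ s ≤ x + H) ∧
        (S.card : ℝ) ≤ C * (1 + Real.log (Real.log (Real.log x) / Real.log (Real.log H))) ^ 2 ∧
        ∀ t : ℝ, x ≤ t → t ≤ x + H → (∀ s ∈ S, C < |t - s|) →
          ‖riemannZeta (1 + t * Complex.I) *
            ∏ p ∈ (Finset.Icc 1 ⌈Real.log H ^ (2 + ε)⌉₊).filter Nat.Prime,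
              (1 - (p : ℂ) ^ (-((1 : ℂ) + t * Complex.I))) - 1‖ ≤ ε ∧
          ‖riemannZeta (1 + t * Complex.I)‖ ≤
            (2 + ε) * Real.exp Real.eulerMascheroniConstant * Real.log (Real.log H) ∧
          ‖riemannZeta (1 + t * Complex.I)‖⁻¹ ≤
            (12 / Real.pi ^ 2 + ε) * Real.exp Real.eulerMascheroniConstant *
              Real.log (Real.log H)) ∧
      (∃ S : Finset ℝ, (∀ s ∈ S, x ≤ s ∧ s ≤ x + H) ∧ (S.card : ℝ) ≤ H ^ (1 / A + ε) ∧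
        ∀ t : ℝ, x ≤ t → t ≤ x + H → (∀ s ∈ S, C < |t - s|) →
          ‖riemannZeta (1 + t * Complex.I)‖ ≤
            A * Real.exp Real.eulerMascheroniConstant * Real.log (Real.log H) ∧
          ‖riemannZeta (1 + t * Complex.I)‖⁻¹ ≤
            A * (6 / Real.pi ^ 2) * Real.exp Real.eulerMascheroniConstant *
              Real.log (Real.log H)) ∧
      (∀ T : Finset ℝ, (∀ t ∈ T, x ≤ t ∧ t ≤ x + H) →
        (∀ t ∈ T, ∀ t' ∈ T, t ≠ t' → C ≤ |t - t'|) →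
        ∏ t ∈ T, ‖riemannZeta (1 + t * Complex.I)‖ ≤
          ((2 + ε) * Real.exp Real.eulerMascheroniConstant * Real.log (Real.log H) *
            (Real.log (Real.log x) / Real.log (Real.log H)) ^ (1 / Real.sqrt T.card)) ^ T.card ∧
        ∏ t ∈ T, ‖riemannZeta (1 + t * Complex.I)‖⁻¹ ≤
          ((12 / Real.pi ^ 2 + ε) * Real.exp Real.eulerMascheroniConstant *
            Real.log (Real.log H) *
            (Real.log (Real.log x) / Real.log (Real.log H)) ^ (1 / Real.sqrt T.card)) ^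
              T.card)) := by
  refine ⟨fun β ε hβ hβ1 hε => Pool.Agent.H.MP_2e4794_nt.RL.beta RH hβ hβ1 hε, ?_⟩
  intro A ε hA hA2 hε hε1
  obtain ⟨C1, hC1, h1⟩ := Pool.Agent.H.MP_2e4794_nt.RL.part_one RH hε hε1
  obtain ⟨C2, hC2, h2⟩ := Pool.Agent.H.MP_2e4794_nt.RL.count_A RH hA hA2 hε
  obtain ⟨C3, hC3, h3⟩ := Pool.Agent.H.MP_2e4794_nt.RL.part_three RH hε
  have k1 : C1 ≤ max C1 (max C2 C3) := le_max_left _ _
  have k2 : C2 ≤ max C1 (max C2 C3) := (le_max_left _ _).trans (le_max_right _ _)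
  have k3 : C3 ≤ max C1 (max C2 C3) := (le_max_right _ _).trans (le_max_right _ _)
  refine ⟨max C1 (max C2 C3), by linarith, ?_⟩
  set C := max C1 (max C2 C3) with hC
  intro x H hH hHx hcond
  obtain ⟨hΛ0, hl0, c1⟩ := Pool.Agent.H.MP_2e4794_nt.RL.cond_mono hC1 k1 hH hHx hcond
  obtain ⟨_, _, c2⟩ := Pool.Agent.H.MP_2e4794_nt.RL.cond_mono hC2 k2 hH hHx hcond
  obtain ⟨_, _, c3⟩ := Pool.Agent.H.MP_2e4794_nt.RL.cond_mono hC3 k3 hH hHx hcond
  refine ⟨?_, ?_, ?_⟩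
  · obtain ⟨S, a1, a2, a3⟩ := h1 x H (k1.trans hH) hHx c1
    refine ⟨S, a1, a2.trans (mul_le_mul_of_nonneg_right k1 (by positivity)), ?_⟩
    intro t ht1 ht2 ht3
    exact a3 t ht1 ht2 (fun s hs => lt_of_le_of_lt k1 (ht3 s hs))
  · obtain ⟨S, a1, a2, a3⟩ := h2 x H (k2.trans hH) hHx c2
    refine ⟨S, a1, a2, ?_⟩
    intro t ht1 ht2 ht3
    exact a3 t ht1 ht2 (fun s hs => lt_of_le_of_lt k2 (ht3 s hs))
  · intro T hT hT2
    exact h3 x H (k3.trans hH) hHx c3 T hT (fun t ht t' ht' hne => k3.trans (hT2 t ht t' ht' hne))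

end Pool.Agent.Results.MP_2e4794_nt.LocalLittlewood
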