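import Pool.Agent.H.MP_2e4794_nt.ZM.Main

/-!
# Large values of `ζ(1+it)` and `1/ζ(1+it)` in short intervals
-/

namespace Pool.Agent.Results.MP_2e4794_nt.ShortIntervals

/-- Let `A, ε > 0`. There is `H₀` such that for all real `x ≥ H ≥ H₀` at most
`(log x)^80 H^(1/A+ε)` naturals `n` in `[x, x+H]` have a point `u` in `[n, n+1]` with
`|ζ(1+iu)| ≥ A e^γ loglog H` or `1/|ζ(1+iu)| ≥ A (6/π²) e^γ loglog H`. -/
theorem result (A ε : ℝ) (hA : 0 < A) (hε : 0 < ε) :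
    ∃ H₀ : ℝ, ∀ x H : ℝ, H₀ ≤ H → H ≤ x →
      ({n : ℕ | x ≤ n ∧ (n : ℝ) ≤ x + H ∧ ∃ u : ℝ, (n : ℝ) ≤ u ∧ u ≤ n + 1 ∧
          (A * Real.exp Real.eulerMascheroniConstant * Real.log (Real.log H) ≤
              ‖riemannZeta (1 + u * Complex.I)‖ ∨
            A * (6 / Real.pi ^ 2) * Real.exp Real.eulerMascheroniConstant *
              Real.log (Real.log H) ≤ ‖riemannZeta (1 + u * Complex.I)‖⁻¹)}.ncard : ℝ) ≤
        Real.log x ^ 80 * H ^ (1 / A + ε) := by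
  obtain ⟨B0, hB0⟩ := Filter.eventually_atTop.1
    (Pool.Agent.H.MP_2e4794_nt.ZM.count (A := A) (ε := ε) hA hε)
  refine ⟨Real.exp (max B0 1), fun x H hH hHx => ?_⟩
  have hHpos : 0 < H := lt_of_lt_of_le (Real.exp_pos _) hH
  have hxpos : 0 < x := lt_of_lt_of_le hHpos hHx
  have h1 : max B0 1 ≤ Real.log H := by
    rw [Real.le_log_iff_exp_le hHpos]
    exact hH
  have h2 : Real.log H ≤ Real.log x := Real.log_le_log hHpos hHx
  have h3 := hB0 (Real.log H) ((le_max_left _ _).trans h1) (Real.log x) h2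
  rw [Real.exp_log hHpos, Real.exp_log hxpos] at h3
  have h4 : H ^ (1 / A + ε) = Real.exp ((1 / A + ε) * Real.log H) := by
    rw [Real.rpow_def_of_pos hHpos]
    congr 1
    ring
  rw [h4]
  exact h3

end Pool.Agent.Results.MP_2e4794_nt.ShortIntervals
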